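import Pool.Agent.D0H83.GD.Fin

/-!
# How many crossing changes separate a long closed braid or plat from a given Jones polynomial

Diagrams (starting library `Pool.Agent.H891R2.Jones.Diagram`): `Diagram P` (oriented link diagrams),
`Diagram.fPoly` (the normalised bracket `(-A^{-3})^{w(D)} ⟨D⟩`), `Diagram.writhe`,
`Diagram.IsClosed` (the pieces of the diagram fit together to closed oriented curves), `Outer m` (the part
of a diagram outside a box with `m` strands). Starting libraries: `Letter m = Bool × Fin (m - 1)` (the
letters `σ_i^{±1}`), `braidClosure m`, `plat k b t` (the plat closure on `2 k` strands with orientations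
`b`, `t` of its arcs), `dia O w` (the diagram obtained by drawing the braid word `w` in the box of `O`).

`Pool.Agent.D0H83.GD.Defs`: `Std m O` (`O` is `braidClosure m`, or `m = 2 k` and `O` is a
`plat k b t`), `Reach M F k G` (chains of `k` crossing changes of closed braids and plats on at most `M`
strands), `exs b` (exponent sum), `cross b ρ` (signed crossing numbers of the pairs of strands), `netc b`
(the sum of their absolute values), `nrm g = ∑ |j| |g_j|`.

Proof. The operators of the Temperley-Lieb algebra in the solid-on-solid model on the sequences of
`m` steps `±1` depend holomorphically on `z = log A` near `z = 0`, where the braids act through the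
permutations of the steps. For `A` on the unit circle near `1` they preserve a positive definite form, so
one crossing change of a diagram on at most `M` strands changes the value at `A = e^{iθ}` by at most
`C_M |θ|`. For real `z` the product of `n` operators of short words is at most
`exp(-(3 w(D) + e) z + 2 |z| ∑ netc + ε |z| n)`. Rescale `z = ψ / n` and use that uniformly bounded
holomorphic functions which tend to `0` on a segment tend to `0` near it (Vitali). The value at `A = 1` is
not `0`, since it is `± 2^c` modulo `3`.
-/

set_option autoImplicit false

namespace Pool.Agent.Results.MP_42db45_gt.CrossingChangeDistance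

open Finset LaurentPolynomial Pool.Agent.H891R2.Jones Pool.Agent.W639.RB Pool.Agent.D0H83.GD
open Pool.Agent.Y463.SK (dia)

theorem closure_closed (m : ℕ) : (braidClosure m).close.IsClosed := by
  classical
  rw [closed_iff]
  have h : ∀ x : Fin m, (univ.filter (fun j : Fin m => j = x)).card = 1 := by
    intro x
    rw [Finset.filter_eq' univ x, if_pos (Finset.mem_univ _), Finset.card_singleton]
  refine ⟨fun x => ?_, fun x => ?_⟩
  · simp only [Sst, braidClosure, id, List.map_nil, List.sum_nil]
    simp <;> convert h x
  · simp only [Sst, braidClosure, Outer.rev, id, List.map_nil, List.sum_nil]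
    simp <;> convert h x

/-- Let `m ≥ 1` and let `M`, `L` and `ε > 0` be given. There is a constant `C` such that for all standard
outsides `O` with `m` strands (braid closure or plat closure), all lists `B` of braid words on `m` strands
of length at most `L` and all `k` and `g`: if `g` can be reached from the normalised bracket of the
diagram `D` of the product of the words of `B` in the box of `O` by `k` crossing changes of closed braids
and plats on at most `M` strands, then
`|3 w(D) + e| ≤ 2 ∑_{b ∈ B} netc b + ε |B| + C (k + 1 + ‖g‖)`, where `w(D)` is the writhe and `e` is
the exponent sum of the product. For closed braids `D` is a closed oriented diagram and `w(D) = e`. -/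
theorem result (m M L : ℕ) (hm : 0 < m) (ε : ℝ) (hε : 0 < ε) :
    (∃ C : ℕ, ∀ O : Outer m, Std m O → ∀ B : List (List (Letter m)), (∀ b ∈ B, b.length ≤ L) →
      ∀ (k : ℕ) (g : ℤ[T;T⁻¹]), Reach M (dia O B.flatten).fPoly k g →
      |3 * ((dia O B.flatten).writhe : ℝ) + exs B.flatten| ≤
        2 * ((B.map netc).sum : ℤ) + ε * B.length + C * (k + 1 + nrm g)) ∧
    ∀ w : List (Letter m), (dia (braidClosure m) w).IsClosed ∧
      (dia (braidClosure m) w).writhe = exs w :=
  ⟨main hm M L hε, fun w => ⟨draw_closed _ _ (toN_mem w) (fun _ => rfl) (closure_closed m),
    writhe_closure w⟩⟩

end Pool.Agent.Results.MP_42db45_gt.CrossingChangeDistance
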