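import Pool.Agent.D0H83.FB.Burau

/-!
# Closed braids on four strands with trivial Jones polynomial

Diagrams (starting library `Pool.Agent.H891R2.Jones.Diagram`): `Diagram P` (oriented link diagrams),
`Diagram.fPoly` (the normalised bracket `(-A^{-3})^{w(D)} ⟨D⟩`), `Diagram.writhe`,
`Diagram.IsClosed` (the pieces of the diagram fit together to closed oriented curves).

Braid words (starting library `Pool.Agent.W639.RB.Defs`): `Letter 4 = Bool × Fin 3` (the letters
`σ_i^{±1}` of the braid group on four strands), `diagram (braidClosure 4) w` (the usual diagram of the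
closure of the braid word `w`), `toL w` (the word as a list).

`burW` (`Pool.Agent.D0H83.FB.Burau`) is the reduced Burau representation of the braid group on four
strands over `ℤ[T;T⁻¹]`, `T` being the variable `t`: for a braid `w` the polynomial
`det (1 - burW w) / (1 + t + t^2 + t^3)` is, up to a unit, the Alexander polynomial of the closure of
`w` (Burau).  `alex e` is `1` for `|e| ≤ 3` and `-t^3 + 2t^2 + t - 3 + t⁻¹ + 2t⁻² - t⁻³` otherwise.
-/

set_option autoImplicit false

namespace Pool.Agent.Results.MP_42db45_gt.FourBraids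

open Finset LaurentPolynomial Pool.Agent.H891R2.Jones Pool.Agent.W639.RB Pool.Agent.TH561
  Pool.Agent.D0H83.FB

theorem closure_closed (m : ℕ) : (braidClosure m).close.IsClosed := by
  classical
  rw [closed_iff]
  have h : ∀ x : Fin m, (univ.filter (fun j : Fin m => j = x)).card = 1 := by
    intro x
    rw [Finset.filter_eq' univ x, if_pos (Finset.mem_univ _), Finset.card_singleton]
  refine ⟨fun x => ?_, fun x => ?_⟩
  · simp only [Sst, braidClosure, id, List.map_nil, List.sum_nil]
    simp <;> convert h x
  · simp only [Sst, braidClosure, Outer.rev, id, List.map_nil, List.sum_nil]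
    simp <;> convert h x

theorem expo_toL {m l : ℕ} (w : Fin l → Letter m) :
    expo (toL w) = ∑ i, (if (w i).1 then (1 : ℤ) else -1) := by
  unfold expo toL
  rw [List.map_ofFn, List.sum_ofFn]
  rfl

/-- Let `w` be any braid word on four strands and `D` the diagram of its closure; its writhe is the
exponent sum `e` of `w`.
If `f_D = 1`, then `e` is odd and `|e| ≤ 5`, and the Alexander polynomial of the closure of `w` is `1`
for `|e| ≤ 3` and `-t^3 + 2t^2 + t - 3 + t⁻¹ + 2t⁻² - t⁻³` for `|e| = 5`.
If `e` is odd and `|e| ≥ 7`, then already the value of `f_D` at `A = exp(-πi/(3e))` is not `1`. -/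
theorem result {n : ℕ} (w : Fin n → Letter 4) :
    (diagram (braidClosure 4) w).IsClosed ∧
    (diagram (braidClosure 4) w).writhe = ∑ i, (if (w i).1 then (1 : ℤ) else -1) ∧
    ((diagram (braidClosure 4) w).fPoly = 1 →
      Odd (diagram (braidClosure 4) w).writhe ∧ |(diagram (braidClosure 4) w).writhe| ≤ 5 ∧
      (1 - burW (toL w)).det = T (((diagram (braidClosure 4) w).writhe - 3) / 2) *
        (1 + T 1 + T 2 + T 3) * alex (diagram (braidClosure 4) w).writhe) ∧
    (Odd (diagram (braidClosure 4) w).writhe → 7 ≤ |(diagram (braidClosure 4) w).writhe| →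
      LaurentPolynomial.eval₂ (Int.castRingHom ℂ) (Units.mk0 (Complex.exp
        (((-(Real.pi / (3 * ((diagram (braidClosure 4) w).writhe : ℝ))) : ℝ) : ℂ) * Complex.I))
        (Complex.exp_ne_zero _)) (diagram (braidClosure 4) w).fPoly ≠ 1) := by
  have hmem := toL_mem w
  have hwr : (diagram (braidClosure 4) w).writhe = expo (toL w) := writhe_eq (toL w) hmem
  refine ⟨draw_closed _ _ (toL_mem _) (fun _ => rfl) (closure_closed 4), by rw [hwr, expo_toL],
    fun hf => ?_, fun ho h7 => ?_⟩
  · rw [hwr]
    exact ⟨expo_odd _ hmem hf, abs_le_five _ hmem hf, det_burau _ hmem hf⟩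
  · simp only [hwr] at ho h7 ⊢
    exact value_ne (toL w) hmem ho h7 _ (Complex.exp_ne_zero _) rfl

end Pool.Agent.Results.MP_42db45_gt.FourBraids
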