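import Pool.Agent.D0H83.FB.Lim

/-!
# Braids on four strands inside a fixed closed braid

Diagrams (starting library `Pool.Agent.H891R2.Jones.Diagram`): `Diagram P` (oriented link diagrams),
`Diagram.fPoly` (the normalised bracket `(-A^{-3})^{w(D)} ⟨D⟩`), `Diagram.writhe`,
`Diagram.IsClosed` (the pieces of the diagram fit together to closed oriented curves).

Braid words (starting library `Pool.Agent.W639.RB.Defs`): `Letter N = Bool × Fin (N - 1)` (the letters
`σ_i^{±1}` of the braid group on `N` strands), `diagram (braidClosure N) w` (the usual diagram of the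
closure of the braid word `w`).

`four hN x` is the letter `x` of the braid group on four strands, read as a letter of the braid group
on `N ≥ 4` strands (on the first four of the `N` strands).
-/

set_option autoImplicit false

namespace Pool.Agent.Results.MP_42db45_gt.FourStrandBox

open Finset LaurentPolynomial Pool.Agent.H891R2.Jones Pool.Agent.W639.RB Pool.Agent.TH561
  Pool.Agent.D0H83.FB

/-- a letter of the braid group on four strands as a letter of the braid group on `N ≥ 4` strands -/
def four {N : ℕ} (hN : 4 ≤ N) (x : Letter 4) : Letter N := (x.1, ⟨x.2, by omega⟩)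

theorem closure_closed (m : ℕ) : (braidClosure m).close.IsClosed := by
  classical
  rw [closed_iff]
  have h : ∀ x : Fin m, (univ.filter (fun j : Fin m => j = x)).card = 1 := by
    intro x
    rw [Finset.filter_eq' univ x, if_pos (Finset.mem_univ _), Finset.card_singleton]
  refine ⟨fun x => ?_, fun x => ?_⟩
  · simp only [Sst, braidClosure, id, List.map_nil, List.sum_nil]
    simp <;> convert h x
  · simp only [Sst, braidClosure, Outer.rev, id, List.map_nil, List.sum_nil]
    simp <;> convert h x

theorem expo_toL {m l : ℕ} (w : Fin l → Letter m) :
    expo (toL w) = ∑ i, (if (w i).1 then (1 : ℤ) else -1) := by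
  unfold expo toL
  rw [List.map_ofFn, List.sum_ofFn]
  rfl

theorem toL_append {N l n : ℕ} (hN : 4 ≤ N) (u : Fin l → Letter N) (w : Fin n → Letter 4) :
    toL (Fin.append u (fun i => four hN (w i))) = toL u ++ toL w := by
  unfold toL
  rw [← List.ofFn_fin_append]
  congr 1
  funext i
  refine Fin.addCases (fun j => ?_) (fun j => ?_) i
  · rw [Fin.append_left, Fin.append_left]
  · rw [Fin.append_right, Fin.append_right]
    rfl

/-- Let `N ≥ 4`, let `u` be any braid word on `N` strands and `g` any Laurent polynomial.  There is a
bound `E` such that for every braid word `w` on four strands (of any length): if the closure of the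
braid `u·w` (with `w` on the first four strands) has `f = g`, then `|e(w)| ≤ E`, where `e(w)` is the
exponent sum of `w`.  The closure is a closed oriented diagram, and its writhe is `e(u) + e(w)`. -/
theorem result (N : ℕ) (hN : 4 ≤ N) {l : ℕ} (u : Fin l → Letter N) (g : ℤ[T;T⁻¹]) :
    ∃ E : ℤ, ∀ (n : ℕ) (w : Fin n → Letter 4),
      (diagram (braidClosure N) (Fin.append u (fun i => four hN (w i)))).IsClosed ∧
      (diagram (braidClosure N) (Fin.append u (fun i => four hN (w i)))).writhe =
        ∑ i, (if (u i).1 then (1 : ℤ) else -1) + ∑ i, (if (w i).1 then (1 : ℤ) else -1) ∧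
      ((diagram (braidClosure N) (Fin.append u (fun i => four hN (w i)))).fPoly = g →
        |∑ i, (if (w i).1 then (1 : ℤ) else -1)| ≤ E) := by
  obtain ⟨E, hE⟩ := bounded N hN (toL u) (toL_mem u) g
  refine ⟨E, fun n w => ⟨draw_closed _ _ (toL_mem _) (fun _ => rfl) (closure_closed N), ?_, ?_⟩⟩
  · have h1 : (diagram (braidClosure N) (Fin.append u (fun i => four hN (w i)))).writhe =
        expo (toL (Fin.append u (fun i => four hN (w i)))) := writhe_eq' _ (toL_mem _)
    rw [h1, toL_append, expo_append, expo_toL, expo_toL]
  · intro h
    unfold diagram at h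
    rw [← expo_toL]
    refine hE (toL w) (toL_mem w) ?_
    have h1 : toL (Fin.append u (fun i => four hN (w i))) = toL u ++ toL w := toL_append hN u w
    revert h
    generalize toL (Fin.append u (fun i => four hN (w i))) = L at h1
    subst h1
    exact id

end Pool.Agent.Results.MP_42db45_gt.FourStrandBox
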