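import Pool.Agent.D0H73.QLO.Fin
import Pool.Agent.D0H73.QLO.Torus2

/-!
# The Jones polynomials of the diagrams with a given shadow: the sharp exponent

Diagrams (starting library `Pool.Agent.H891R2.Jones.Diagram`): `Diagram.fPoly` is the normalised bracket
`(-A^{-3})^{w(D)} ⟨D⟩`, a Laurent polynomial in `A = T 1`.  Shadows (starting library
`Pool.Agent.R811.Cross.Defs`, `Pool.Agent.R811.Cross.Bigon`): `Shadow n` is the shadow of an oriented knot diagram with
`n` crossings (a Gauss code), `G.diagram s` is the diagram with the shadow `G` whose crossing `i` is positive for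
`s i = true` and negative for `s i = false`; so the `2 ^ n` diagrams `G.diagram s` arise from one of them by crossing
changes, and they are closed oriented knot diagrams (starting result `AllShadows`).
`G.Interlaced i j`: running through the curve one meets `j` exactly once between the two passages through `i`.
`G.Antiparallel i j`: `i` and `j` are the vertices of a bigon whose sides are directed oppositely.

The starting result `AllShadows` has the bound `(162 / ν) ^ (1/4)` for the proportion in (1) below.

Proof.  (1) The second moment `F(s)` of `fPoly (G.diagram s)` (its second derivative at `A = 1`) is a quadratic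
function on the cube whose second differences in the directions of interlaced pairs are not `0` (starting library).
They are bounded by an absolute constant: the skein relation expresses them by the values at `A = 1` of the
polynomials of diagrams of links with a bounded number of components, which are powers of `-2`
(`Pool.Agent.Y463.BS`).  (2) `Pool.Agent.D0H73.QLO.quadLO`: a function on the cube `{0,1}^n` with constant second
differences, bounded by `B`, which are not zero for `ν` disjoint pairs, takes every value on at most
`C B² (1 + log ν)^{7/2} ν^{-1/2} 2^n` points.  The proof compares the weighted influences of the threshold functions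
of `F` with the second moment of `Σ_i x_i θ_i(x)`, where `θ_i` is a smooth cut-off of the first difference `D_i F` on
each dyadic scale.  (3) `Pool.Agent.D0H73.QLO.Kn.torus`: the shadow of the torus knot `T(2, n)`, for which the
polynomial only depends on the sum of the signs.
-/

set_option autoImplicit false

namespace Pool.Agent.Results.MP_42db45_gt.SharpExponent

open Finset LaurentPolynomial Pool.Agent.H891R2.Jones Pool.Agent.R811.Cross

open Classical in
/-- (1) There is an absolute constant `C` with the following property.  Let `G` be the shadow of an oriented knot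
diagram with `n` crossings and `g` a Laurent polynomial (for instance `g = 1`).  If `G` has `ν` pairwise disjoint
pairs of interlaced double points, then the proportion `p` of the `2 ^ n` diagrams with the shadow `G` whose
`f`-polynomial is equal to `g`, or only agrees with `g` up to terms of order `3` at `A = 1`, satisfies
`ν p² ≤ C (1 + log ν)^7`, that is `p = O((log ν)^{7/2} ν^{-1/2})`.  If every double point of `G` is interlaced with
another one and there are no antiparallel bigons, then `n p² ≤ C (1 + log n)^7`.

(2) The exponent `1/2` of `ν` and of `n` cannot be improved: for every odd `n = 2 m + 1` there is a shadow with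
`n` double points, any two of which are interlaced and not antiparallel, such that the proportion of the diagrams
with `f = 1` is at least `1 / √(m + 1)`. -/
theorem result :
    (∃ C : ℝ, ∀ (n : ℕ) (G : Shadow n) (g : ℤ[T;T⁻¹]),
      (∀ (ν : ℕ) (u w : Fin ν → Fin n), Function.Injective (Sum.elim u w) →
        (∀ k, G.Interlaced (u k) (w k)) →
        (ν : ℝ) * (#{s : Fin n → Bool | (T 1 - 1 : ℤ[T;T⁻¹]) ^ 3 ∣ (G.diagram s).fPoly - g} : ℝ) ^ 2 ≤
          C * (1 + Real.log ν) ^ 7 * 4 ^ n ∧
        (ν : ℝ) * (#{s : Fin n → Bool | (G.diagram s).fPoly = g} : ℝ) ^ 2 ≤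
          C * (1 + Real.log ν) ^ 7 * 4 ^ n) ∧
      ((∀ i, ∃ j, G.Interlaced i j) → (∀ i j, i ≠ j → ¬ G.Antiparallel i j) →
        (n : ℝ) * (#{s : Fin n → Bool | (T 1 - 1 : ℤ[T;T⁻¹]) ^ 3 ∣ (G.diagram s).fPoly - g} : ℝ) ^ 2 ≤
          C * (1 + Real.log n) ^ 7 * 4 ^ n ∧
        (n : ℝ) * (#{s : Fin n → Bool | (G.diagram s).fPoly = g} : ℝ) ^ 2 ≤
          C * (1 + Real.log n) ^ 7 * 4 ^ n)) ∧
    (∀ m : ℕ, ∃ G : Shadow (2 * m + 1),
      (∀ i j, i ≠ j → G.Interlaced i j ∧ ¬ G.Antiparallel i j) ∧
      4 ^ (2 * m + 1) ≤ (m + 1) * #{s : Fin (2 * m + 1) → Bool | (G.diagram s).fPoly = 1} ^ 2) := by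
  constructor
  · refine ⟨10 * (21000000 * 3 ^ 7 * 640 ^ 4), fun n G g => ?_⟩
    have hsub : (#{s : Fin n → Bool | (G.diagram s).fPoly = g} : ℝ) ^ 2 ≤
        (#{s : Fin n → Bool | (T 1 - 1 : ℤ[T;T⁻¹]) ^ 3 ∣ (G.diagram s).fPoly - g} : ℝ) ^ 2 := by
      refine pow_le_pow_left₀ (by positivity) ?_ 2
      have : #{s : Fin n → Bool | (G.diagram s).fPoly = g} ≤
          #{s : Fin n → Bool | (T 1 - 1 : ℤ[T;T⁻¹]) ^ 3 ∣ (G.diagram s).fPoly - g} := by
        refine Finset.card_le_card ?_
        intro s hs
        rw [Finset.mem_filter] at hs ⊢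
        exact ⟨hs.1, by rw [hs.2, sub_self]; exact dvd_zero _⟩
      exact_mod_cast this
    have hlog : ∀ ν : ℕ, 0 ≤ Real.log ν := fun ν => Real.log_natCast_nonneg ν
    constructor
    · intro ν u w h1 h2
      have h := Pool.Agent.D0H73.QLO.Kn.antiQ G u w h1 h2 g
      have h3 : (ν : ℝ) * (#{s : Fin n → Bool | (T 1 - 1 : ℤ[T;T⁻¹]) ^ 3 ∣ (G.diagram s).fPoly - g} : ℝ) ^ 2 ≤
          10 * (21000000 * 3 ^ 7 * 640 ^ 4) * (1 + Real.log ν) ^ 7 * 4 ^ n := by
        refine h.trans ?_
        have := hlog ν
        refine mul_le_mul_of_nonneg_right (mul_le_mul_of_nonneg_right (by norm_num) (by positivity))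
          (by positivity)
      exact ⟨h3, (mul_le_mul_of_nonneg_left hsub (by positivity)).trans h3⟩
    · intro h1 h2
      obtain ⟨ν, u, w, h3, h4, h5⟩ := matching G h1 h2
      have h := Pool.Agent.D0H73.QLO.Kn.antiQ G u w h3 h4 g
      set M : ℝ := (#{s : Fin n → Bool | (T 1 - 1 : ℤ[T;T⁻¹]) ^ 3 ∣ (G.diagram s).fPoly - g} : ℝ)
      have key : (n : ℝ) * M ^ 2 ≤ 10 * (21000000 * 3 ^ 7 * 640 ^ 4) * (1 + Real.log n) ^ 7 * 4 ^ n := by
        have h6 : (n : ℝ) ≤ 10 * ν := by exact_mod_cast h5
        have h7 : Real.log ν ≤ Real.log n := by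
          rcases Nat.eq_zero_or_pos ν with h0 | h0
          · rw [h0]; simpa using hlog n
          · refine Real.log_le_log (by exact_mod_cast h0) ?_
            have : ν ≤ n := by
              have := Fintype.card_le_of_injective u (fun a b hab =>
                Sum.inl_injective (h3 (a₁ := Sum.inl a) (a₂ := Sum.inl b) hab))
              simpa using this
            exact_mod_cast this
        have h8 := hlog ν
        calc (n : ℝ) * M ^ 2 ≤ (10 * ν) * M ^ 2 := mul_le_mul_of_nonneg_right h6 (by positivity)
          _ = 10 * (ν * M ^ 2) := by ring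
          _ ≤ 10 * ((21000000 * 3 ^ 7 * 640 ^ 4) * (1 + Real.log ν) ^ 7 * 4 ^ n) :=
              mul_le_mul_of_nonneg_left h (by norm_num)
          _ ≤ 10 * ((21000000 * 3 ^ 7 * 640 ^ 4) * (1 + Real.log n) ^ 7 * 4 ^ n) := by
              refine mul_le_mul_of_nonneg_left (mul_le_mul_of_nonneg_right (mul_le_mul_of_nonneg_left
                (pow_le_pow_left₀ (by linarith) (by linarith) 7) (by norm_num)) (by positivity)) (by norm_num)
          _ = _ := by ring
      exact ⟨key, (mul_le_mul_of_nonneg_left hsub (by positivity)).trans key⟩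
  · intro m
    refine ⟨Pool.Agent.D0H73.QLO.Kn.torus (2 * m + 1), fun i j hij =>
      ⟨Pool.Agent.D0H73.QLO.Kn.torus_interlaced hij,
        Pool.Agent.D0H73.QLO.Kn.torus_antiparallel (by omega) hij⟩, ?_⟩
    exact Pool.Agent.D0H73.QLO.Kn.torus_count m

end Pool.Agent.Results.MP_42db45_gt.SharpExponent
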